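import Mathlib

/-!
# The generalized abc conjecture for `n` summands fails for `n = 10`

With `P = u v` and `Q = u² - v²` one has the ten-term identity of degree 32
`4⁸ P⁵ u²² - 4⁸ P⁵ v²² - Q⁵ (u+v)²² + Q⁵ (u-v)²²
  + 13312 P⁵Q¹¹ - 851968 P¹¹Q⁵ - 3604480 P¹³Q³ - 720896 P¹⁵Q + 3520 P³Q¹³ + 44 P Q¹⁵ = 0`.
With `u = 2^k`, `v = 1` the largest term is at least `(4^k-1)^16`, the terms have no common factor,
no proper subsum vanishes for `k ≥ 26`, and the radical of the product is at most `1430 (4^k-1)`.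
Since `16 > 2·10 - 5 = 15`, the conjectured bound fails.
-/

set_option autoImplicit false
set_option maxHeartbeats 4000000
set_option maxRecDepth 20000

namespace Pool.Agent.H494R2.NC

/-- the ten terms at `u = T`, `v = 1` -/
def X (T : ℤ) : Fin 10 → ℤ :=
  ![65536 * T ^ 27, -(65536 * T ^ 5), -((T ^ 2 - 1) ^ 5 * (T + 1) ^ 22),
    (T ^ 2 - 1) ^ 5 * (T - 1) ^ 22, 13312 * T ^ 5 * (T ^ 2 - 1) ^ 11,
    -(851968 * T ^ 11 * (T ^ 2 - 1) ^ 5), -(3604480 * T ^ 13 * (T ^ 2 - 1) ^ 3),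
    -(720896 * T ^ 15 * (T ^ 2 - 1)), 3520 * T ^ 3 * (T ^ 2 - 1) ^ 13,
    44 * T * (T ^ 2 - 1) ^ 15]

theorem X_sum (T : ℤ) : ∑ i, X T i = 0 := by
  simp only [Fin.sum_univ_succ, X]
  simp
  ring

/-- An integer polynomial with coefficients of absolute value `< T` vanishing at `T` is zero. -/
theorem horner_zero (T : ℤ) (hT : 0 < T) : ∀ l : List ℤ, (∀ c ∈ l, |c| < T) →
    l.foldr (fun c a => c + T * a) 0 = 0 → ∀ c ∈ l, c = 0 := by
  intro l
  induction l with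
  | nil => intro _ _ c hc; simp at hc
  | cons b l ih =>
    intro hb h c hc
    simp only [List.foldr_cons] at h
    have hbT : |b| < T := hb b (by simp)
    have hdvd : T ∣ b := ⟨-(l.foldr (fun c a => c + T * a) 0), by linarith⟩
    have hb0 : b = 0 := Int.eq_zero_of_abs_lt_dvd hdvd hbT
    subst hb0
    have h2 : l.foldr (fun c a => c + T * a) 0 = 0 := by
      have : T * l.foldr (fun c a => c + T * a) 0 = 0 := by linarith
      rcases mul_eq_zero.mp this with h | h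
      · omega
      · exact h
    rcases List.mem_cons.mp hc with rfl | hc
    · rfl
    · exact ih (fun c hc => hb c (by simp [hc])) h2 c hc

theorem no_subsum (T : ℤ) (hT : 67108864 ≤ T) (e1 e2 e3 e4 e5 e6 e7 e8 e9 e10 : ℤ)
    (h1 : e1 = 0 ∨ e1 = 1) (h2 : e2 = 0 ∨ e2 = 1) (h3 : e3 = 0 ∨ e3 = 1) (h4 : e4 = 0 ∨ e4 = 1)
    (h5 : e5 = 0 ∨ e5 = 1) (h6 : e6 = 0 ∨ e6 = 1) (h7 : e7 = 0 ∨ e7 = 1) (h8 : e8 = 0 ∨ e8 = 1)
    (h9 : e9 = 0 ∨ e9 = 1) (h10 : e10 = 0 ∨ e10 = 1)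
    (h : e1 * (65536 * T ^ 27) + e2 * (-(65536 * T ^ 5)) + e3 * (-((T ^ 2 - 1) ^ 5 * (T + 1) ^ 22))
      + e4 * ((T ^ 2 - 1) ^ 5 * (T - 1) ^ 22) + e5 * (13312 * T ^ 5 * (T ^ 2 - 1) ^ 11)
      + e6 * (-(851968 * T ^ 11 * (T ^ 2 - 1) ^ 5)) + e7 * (-(3604480 * T ^ 13 * (T ^ 2 - 1) ^ 3))
      + e8 * (-(720896 * T ^ 15 * (T ^ 2 - 1))) + e9 * (3520 * T ^ 3 * (T ^ 2 - 1) ^ 13)
      + e10 * (44 * T * (T ^ 2 - 1) ^ 15) = 0) :
    (e1 = e3 ∧ e2 = e3 ∧ e4 = e3 ∧ e5 = e3 ∧ e6 = e3 ∧ e7 = e3 ∧ e8 = e3 ∧ e9 = e3 ∧ e10 = e3) := by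
  have hz := horner_zero T (by omega)
    [1*e3 + (-1)*e4,
      22*e3 + 22*e4 + (-44)*e10,
      226*e3 + (-226)*e4,
      1430*e3 + 1430*e4 + (-3520)*e9 + 660*e10,
      6170*e3 + (-6170)*e4,
      (-65536)*e2 + 18854*e3 + 18854*e4 + (-13312)*e5 + 45760*e9 + (-4620)*e10,
      40338*e3 + (-40338)*e4,
      54054*e3 + 54054*e4 + 146432*e5 + (-274560)*e9 + 20020*e10,
      17550*e3 + (-17550)*e4,
      (-107250)*e3 + (-107250)*e4 + (-732160)*e5 + 1006720*e9 + (-60060)*e10,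
      (-278070)*e3 + 278070*e4,
      (-331890)*e3 + (-331890)*e4 + 2196480*e5 + 851968*e6 + (-2516800)*e9 + 132132*e10,
      (-98670)*e3 + 98670*e4,
      369150*e3 + 369150*e4 + (-4392960)*e5 + (-4259840)*e6 + 3604480*e7 + 4530240*e9 + (-220220)*e10,
      721050*e3 + (-721050)*e4,
      589950*e3 + 589950*e4 + 6150144*e5 + 8519680*e6 + (-10813440)*e7 + 720896*e8 + (-6040320)*e9 + 283140*e10,
      0,
      (-589950)*e3 + (-589950)*e4 + (-6150144)*e5 + (-8519680)*e6 + 10813440*e7 + (-720896)*e8 + 6040320*e9 + (-283140)*e10,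
      (-721050)*e3 + 721050*e4,
      (-369150)*e3 + (-369150)*e4 + 4392960*e5 + 4259840*e6 + (-3604480)*e7 + (-4530240)*e9 + 220220*e10,
      98670*e3 + (-98670)*e4,
      331890*e3 + 331890*e4 + (-2196480)*e5 + (-851968)*e6 + 2516800*e9 + (-132132)*e10,
      278070*e3 + (-278070)*e4,
      107250*e3 + 107250*e4 + 732160*e5 + (-1006720)*e9 + 60060*e10,
      (-17550)*e3 + 17550*e4,
      (-54054)*e3 + (-54054)*e4 + (-146432)*e5 + 274560*e9 + (-20020)*e10,
      (-40338)*e3 + 40338*e4,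
      65536*e1 + (-18854)*e3 + (-18854)*e4 + 13312*e5 + (-45760)*e9 + 4620*e10,
      (-6170)*e3 + 6170*e4,
      (-1430)*e3 + (-1430)*e4 + 3520*e9 + (-660)*e10,
      (-226)*e3 + 226*e4,
      (-22)*e3 + (-22)*e4 + 44*e10,
      (-1)*e3 + 1*e4]
    (by
      simp only [List.forall_mem_cons, abs_lt, List.not_mem_nil, false_implies, implies_true,
        and_true]
      refine ⟨?_, ?_, ?_, ?_, ?_, ?_, ?_, ?_, ?_, ?_, ?_, ?_, ?_, ?_, ?_, ?_, ?_, ?_, ?_, ?_, ?_, ?_, ?_, ?_, ?_, ?_, ?_, ?_, ?_, ?_, ?_, ?_, ?_⟩ <;> constructor <;> omega)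
    (by
      simp only [List.foldr_cons, List.foldr_nil]
      refine Eq.trans ?_ h
      ring)
  simp only [List.mem_cons, List.not_mem_nil, or_false, forall_eq_or_imp, forall_eq] at hz
  omega

theorem X_expand (T : ℤ) (e : Fin 10 → ℤ) : ∑ i, e i * X T i =
    e 0 * (65536 * T ^ 27) + e 1 * (-(65536 * T ^ 5)) + e 2 * (-((T ^ 2 - 1) ^ 5 * (T + 1) ^ 22))
      + e 3 * ((T ^ 2 - 1) ^ 5 * (T - 1) ^ 22) + e 4 * (13312 * T ^ 5 * (T ^ 2 - 1) ^ 11)
      + e 5 * (-(851968 * T ^ 11 * (T ^ 2 - 1) ^ 5)) + e 6 * (-(3604480 * T ^ 13 * (T ^ 2 - 1) ^ 3))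
      + e 7 * (-(720896 * T ^ 15 * (T ^ 2 - 1))) + e 8 * (3520 * T ^ 3 * (T ^ 2 - 1) ^ 13)
      + e 9 * (44 * T * (T ^ 2 - 1) ^ 15) := by
  have : ∀ f : Fin 10 → ℤ, ∑ i, f i = f 0 + f 1 + f 2 + f 3 + f 4 + f 5 + f 6 + f 7 + f 8 + f 9 := by
    intro f
    simp [Fin.sum_univ_succ]
    ring
  rw [this]
  rfl

theorem X_subsum (T : ℤ) (hT : 67108864 ≤ T) (I : Finset (Fin 10)) (hne : I.Nonempty)
    (hun : I ≠ Finset.univ) : ∑ i ∈ I, X T i ≠ 0 := by
  intro h0
  set e : Fin 10 → ℤ := fun i => if i ∈ I then 1 else 0 with he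
  have hsum : ∑ i, e i * X T i = 0 := by
    rw [← h0]
    simp only [he, ite_mul, one_mul, zero_mul, Finset.sum_ite_mem, Finset.univ_inter]
  have h01 : ∀ i, e i = 0 ∨ e i = 1 := by
    intro i
    simp only [he]
    split_ifs <;> simp
  have h1 : ∀ i, e i = 1 ↔ i ∈ I := by
    intro i
    simp only [he]
    split_ifs <;> simp_all
  rw [X_expand] at hsum
  have key := no_subsum T hT (e 0) (e 1) (e 2) (e 3) (e 4) (e 5) (e 6) (e 7) (e 8) (e 9)
    (h01 _) (h01 _) (h01 _) (h01 _) (h01 _) (h01 _) (h01 _) (h01 _) (h01 _) (h01 _) hsum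
  have hall : ∀ i, e i = e 2 := by
    obtain ⟨k1, k2, k4, k5, k6, k7, k8, k9, k10⟩ := key
    intro i
    fin_cases i
    · exact k1
    · exact k2
    · rfl
    · exact k4
    · exact k5
    · exact k6
    · exact k7
    · exact k8
    · exact k9
    · exact k10
  rcases h01 2 with h2 | h2
  · obtain ⟨i, hi⟩ := hne
    have := (h1 i).2 hi
    rw [hall i, h2] at this
    exact zero_ne_one this
  · apply hun
    rw [Finset.eq_univ_iff_forall]
    intro i
    rw [← h1 i, hall i, h2]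

theorem X_gcd (k : ℕ) (hk : 1 ≤ k) : Finset.univ.gcd (X (2 ^ k)) = 1 := by
  set g := Finset.univ.gcd (X (2 ^ k)) with hg
  have h1 : g ∣ X (2 ^ k) 1 := Finset.gcd_dvd (Finset.mem_univ _)
  have h2 : g ∣ X (2 ^ k) 2 := Finset.gcd_dvd (Finset.mem_univ _)
  have hodd1 : IsCoprime (2 : ℤ) (((2 ^ k) ^ 2 - 1)) := by
    refine ⟨2 ^ (2 * k - 1), -1, ?_⟩
    obtain ⟨j, rfl⟩ : ∃ j, k = j + 1 := ⟨k - 1, by omega⟩
    have : 2 * (j + 1) - 1 = 2 * j + 1 := by omega
    rw [this]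
    ring
  have hodd2 : IsCoprime (2 : ℤ) ((2 ^ k) + 1) := by
    refine ⟨-2 ^ (k - 1), 1, ?_⟩
    obtain ⟨j, rfl⟩ : ∃ j, k = j + 1 := ⟨k - 1, by omega⟩
    simp only [Nat.add_sub_cancel]
    ring
  have hc : IsCoprime (X (2 ^ k) 1) (X (2 ^ k) 2) := by
    have e1 : X (2 ^ k) 1 = -(2 ^ (16 + 5 * k)) := by
      simp only [X]
      simp
      rw [pow_add, mul_comm 5 k, pow_mul]
      norm_num
    have e2 : X (2 ^ k) 2 = -((((2 ^ k) ^ 2 - 1)) ^ 5 * ((2 ^ k) + 1) ^ 22) := by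
      simp only [X]
      simp
    rw [e1, e2]
    apply IsCoprime.neg_neg
    apply IsCoprime.pow_left
    exact IsCoprime.mul_right hodd1.pow_right hodd2.pow_right
  have hu : IsUnit g := hc.isUnit_of_dvd' h1 h2
  have hn : normalize g = g := Finset.normalize_gcd
  rw [← hn]
  exact normalize_eq_one.2 hu

theorem prime_dvd (T p : ℤ) (hp : Prime p) (hT : p ∣ T → p ∣ 2) (i : Fin 10) (h : p ∣ X T i) :
    p ∣ 1430 * (T ^ 2 - 1) := by
  have key : p ∣ 2 ∨ p ∣ 5 ∨ p ∣ 11 ∨ p ∣ 13 ∨ p ∣ (T ^ 2 - 1) ∨ p ∣ (T + 1) ∨ p ∣ (T - 1) := by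
    have aux : ∀ a b : ℤ, p ∣ a * b → p ∣ a ∨ p ∣ b := fun a b => hp.dvd_or_dvd
    have auxp : ∀ (a : ℤ) (n : ℕ), p ∣ a ^ n → p ∣ a := fun a n => hp.dvd_of_dvd_pow
    have main : p ∣ (2 ^ 16 * T ^ 27 : ℤ) ∨ p ∣ ((T ^ 2 - 1) ^ 5 * (T + 1) ^ 22) ∨
        p ∣ ((T ^ 2 - 1) ^ 5 * (T - 1) ^ 22) ∨ p ∣ (2 ^ 10 * 13 * T ^ 5 * (T ^ 2 - 1) ^ 11) ∨
        p ∣ (2 ^ 16 * 13 * T ^ 11 * (T ^ 2 - 1) ^ 5) ∨
        p ∣ (2 ^ 16 * 5 * 11 * T ^ 13 * (T ^ 2 - 1) ^ 3) ∨
        p ∣ (2 ^ 16 * 11 * T ^ 15 * (T ^ 2 - 1)) ∨ p ∣ (2 ^ 6 * 5 * 11 * T ^ 3 * (T ^ 2 - 1) ^ 13) ∨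
        p ∣ (2 ^ 2 * 11 * T * (T ^ 2 - 1) ^ 15) ∨ p ∣ (2 ^ 16 * T ^ 5 : ℤ) := by
      fin_cases i
      · left; simpa [X] using h
      · right; right; right; right; right; right; right; right; right; simpa [X] using h
      · right; left; simpa [X] using h
      · right; right; left; simpa [X] using h
      · right; right; right; left; simpa [X] using h
      · right; right; right; right; left; simpa [X] using h
      · right; right; right; right; right; left; simpa [X] using h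
      · right; right; right; right; right; right; left; simpa [X] using h
      · right; right; right; right; right; right; right; left; simpa [X] using h
      · right; right; right; right; right; right; right; right; left; simpa [X] using h
    rcases main with h | h | h | h | h | h | h | h | h | h
    · rcases aux _ _ h with h | h
      · left; exact auxp _ _ h
      · left; exact hT (auxp _ _ h)
    · rcases aux _ _ h with h | h
      · have := auxp _ _ h; tauto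
      · have := auxp _ _ h; tauto
    · rcases aux _ _ h with h | h
      · have := auxp _ _ h; tauto
      · have := auxp _ _ h; tauto
    · rcases aux _ _ h with h | h
      · rcases aux _ _ h with h | h
        · rcases aux _ _ h with h | h
          · have := auxp _ _ h; tauto
          · tauto
        · left; exact hT (auxp _ _ h)
      · have := auxp _ _ h; tauto
    · rcases aux _ _ h with h | h
      · rcases aux _ _ h with h | h
        · rcases aux _ _ h with h | h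
          · have := auxp _ _ h; tauto
          · tauto
        · left; exact hT (auxp _ _ h)
      · have := auxp _ _ h; tauto
    · rcases aux _ _ h with h | h
      · rcases aux _ _ h with h | h
        · rcases aux _ _ h with h | h
          · rcases aux _ _ h with h | h
            · have := auxp _ _ h; tauto
            · tauto
          · tauto
        · left; exact hT (auxp _ _ h)
      · have := auxp _ _ h; tauto
    · rcases aux _ _ h with h | h
      · rcases aux _ _ h with h | h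
        · rcases aux _ _ h with h | h
          · have := auxp _ _ h; tauto
          · tauto
        · left; exact hT (auxp _ _ h)
      · tauto
    · rcases aux _ _ h with h | h
      · rcases aux _ _ h with h | h
        · rcases aux _ _ h with h | h
          · rcases aux _ _ h with h | h
            · have := auxp _ _ h; tauto
            · tauto
          · tauto
        · left; exact hT (auxp _ _ h)
      · have := auxp _ _ h; tauto
    · rcases aux _ _ h with h | h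
      · rcases aux _ _ h with h | h
        · rcases aux _ _ h with h | h
          · have := auxp _ _ h; tauto
          · tauto
        · left; exact hT h
      · have := auxp _ _ h; tauto
    · rcases aux _ _ h with h | h
      · left; exact auxp _ _ h
      · left; exact hT (auxp _ _ h)
  have e1430 : (1430 : ℤ) = 2 * 5 * 11 * 13 := by norm_num
  rcases key with h | h | h | h | h | h | h
  · exact Dvd.dvd.mul_right (h.trans (by norm_num)) _
  · exact Dvd.dvd.mul_right (h.trans (by norm_num)) _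
  · exact Dvd.dvd.mul_right (h.trans (by norm_num)) _
  · exact Dvd.dvd.mul_right (h.trans (by norm_num)) _
  · exact Dvd.dvd.mul_left h _
  · exact Dvd.dvd.mul_left (h.trans ⟨T - 1, by ring⟩) _
  · exact Dvd.dvd.mul_left (h.trans ⟨T + 1, by ring⟩) _

theorem X_rad (k : ℕ) (hk : 1 ≤ k) :
    (((∏ j, X (2 ^ k) j).natAbs.primeFactors.prod id : ℕ) : ℝ) ≤ 1430 * ((4 : ℝ) ^ k - 1) := by
  have hpos : 0 < 4 ^ k - 1 := by
    have : 4 ^ 1 ≤ 4 ^ k := Nat.pow_le_pow_right (by norm_num) hk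
    omega
  have hM : (1430 * (4 ^ k - 1) : ℕ) ≠ 0 := by positivity
  have hsub : (∏ j, X (2 ^ k) j).natAbs.primeFactors ⊆ (1430 * (4 ^ k - 1)).primeFactors := by
    intro p hp
    rw [Nat.mem_primeFactors] at hp ⊢
    obtain ⟨hpp, hpd, hp0⟩ := hp
    refine ⟨hpp, ?_, hM⟩
    have hpi : Prime (p : ℤ) := Nat.prime_iff_prime_int.mp hpp
    have hd : (p : ℤ) ∣ ∏ j, X (2 ^ k) j := Int.natCast_dvd.mpr hpd
    obtain ⟨i, _, hi⟩ := (Prime.dvd_finsetProd_iff hpi _).mp hd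
    have := prime_dvd (2 ^ k) p hpi (fun h => hpi.dvd_of_dvd_pow h) i hi
    have e : (1430 * ((2 ^ k) ^ 2 - 1) : ℤ) = ((1430 * (4 ^ k - 1) : ℕ) : ℤ) := by
      push_cast [Nat.cast_sub (show 1 ≤ 4 ^ k from Nat.one_le_pow _ _ (by norm_num))]
      rw [← pow_mul, mul_comm k 2, pow_mul]
      norm_num
    rw [e] at this
    exact_mod_cast this
  have h1 : (∏ j, X (2 ^ k) j).natAbs.primeFactors.prod id ≤
      (1430 * (4 ^ k - 1)).primeFactors.prod id := by
    apply Finset.prod_le_prod_of_subset_of_one_le' hsub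
    intro i hi _
    exact (Nat.prime_of_mem_primeFactors hi).one_le
  have h2 : (1430 * (4 ^ k - 1)).primeFactors.prod id ≤ 1430 * (4 ^ k - 1) :=
    Nat.le_of_dvd (Nat.pos_of_ne_zero hM) (Nat.prod_primeFactors_dvd _)
  have h3 := h1.trans h2
  have h4 : (((∏ j, X (2 ^ k) j).natAbs.primeFactors.prod id : ℕ) : ℝ) ≤
      ((1430 * (4 ^ k - 1) : ℕ) : ℝ) := by exact_mod_cast h3
  refine h4.trans (le_of_eq ?_)
  push_cast [Nat.cast_sub (show 1 ≤ 4 ^ k from Nat.one_le_pow _ _ (by norm_num))]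
  ring

theorem X_large (k : ℕ) : ((4 : ℝ) ^ k - 1) ^ 16 ≤ (((|X (2 ^ k) 2| : ℤ)) : ℝ) := by
  have e : X (2 ^ k) 2 = -((((2 ^ k) ^ 2 - 1)) ^ 5 * ((2 ^ k) + 1) ^ 22) := by
    simp only [X]
    simp
  have hk : (1 : ℝ) ≤ 4 ^ k := one_le_pow₀ (by norm_num)
  have h4 : ((2 : ℝ) ^ k) ^ 2 = 4 ^ k := by
    rw [← pow_mul, mul_comm k 2, pow_mul]; norm_num
  have hq : (0 : ℝ) ≤ 4 ^ k - 1 := by linarith
  rw [e, abs_neg]
  push_cast
  rw [h4, abs_of_nonneg (by positivity)]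
  have h5 : (4 : ℝ) ^ k - 1 ≤ (2 ^ k + 1) ^ 2 := by
    have : (0 : ℝ) < 2 ^ k := by positivity
    nlinarith
  calc ((4 : ℝ) ^ k - 1) ^ 16 = (4 ^ k - 1) ^ 5 * (4 ^ k - 1) ^ 11 := by ring
    _ ≤ (4 ^ k - 1) ^ 5 * ((2 ^ k + 1) ^ 2) ^ 11 := by
        apply mul_le_mul_of_nonneg_left _ (by positivity)
        exact pow_le_pow_left₀ hq h5 11
    _ = (4 ^ k - 1) ^ 5 * (2 ^ k + 1) ^ 22 := by rw [← pow_mul]

end Pool.Agent.H494R2.NC
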